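import Pool.Agent.H97.SHL.Targets

set_option autoImplicit false

namespace Pool.Agent.H61.SHL

open Finset Pool.Agent.H97.SHL

theorem pf_UNF (hBLM : T_BLM) : T_UNF := by
  intro X _ 𝓛 Lf hmono S A h hD T
  induction T with
  | zero =>
    intro i Q hi hQ
    refine ⟨{Q}, ?_, ?_, ?_, ?_, ?_⟩
    · simp
    · simp [bl]
    · intro c hc c' hc' hne
      rw [mem_singleton] at hc hc'
      exact absurd (hc.trans hc'.symm) hne
    · simp
    · intro c hc
      rw [mem_singleton] at hc
      subst hc
      exact Or.inr ⟨i, hi, hQ, by omega⟩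
  | succ T ih =>
    intro i
    induction i using Nat.strong_induction_on with
    | _ i ihi =>
      intro Q hi hQ
      rcases hD.step i hi with hL | ⟨j, hji, hhj, hsub⟩ | ⟨j, k, hji, hki, hhj, hhk, hsub⟩
      · refine ⟨{Q}, ?_, ?_, ?_, ?_, ?_⟩
        · rw [card_singleton]
          exact Nat.one_le_two_pow
        · exact (hBLM X 𝓛 {Q} {Q} (T + 1) (T + 1) (Subset.refl _) (le_refl _)).2.1
        · intro c hc c' hc' hne
          rw [mem_singleton] at hc hc'
          exact absurd (hc.trans hc'.symm) hne
        · simp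
        · intro c hc
          rw [mem_singleton] at hc
          subst hc
          exact Or.inl (hmono _ _ hL hQ)
      · obtain ⟨𝓒, h1, h2, h3, h4, h5⟩ := ihi j hji Q (hji.trans hi) (hQ.trans hsub)
        refine ⟨𝓒, h1, h2, h3, h4, ?_⟩
        intro c hc
        rcases h5 c hc with h6 | ⟨j', h6, h7, h8⟩
        · exact Or.inl h6
        · exact Or.inr ⟨j', h6, h7, by omega⟩
      · have hAj : A j ∈ 𝓛 := hD.mem j (hji.trans hi)
        obtain ⟨𝓒₁, h1, h2, h3, h4, h5⟩ := ih j (Q ∩ A j) (hji.trans hi) inter_subset_right
        have hk : Q \ A j ⊆ A k := by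
          intro x hx
          rw [mem_sdiff] at hx
          rcases mem_union.mp (hsub (hQ hx.1)) with h6 | h6
          · exact absurd h6 hx.2
          · exact h6
        obtain ⟨𝓒₂, g1, g2, g3, g4, g5⟩ := ih k (Q \ A j) (hki.trans hi) hk
        have hb := (hBLM X 𝓛 {Q} {Q} T T (Subset.refl _) (le_refl _)).2.2.1 Q
          (mem_singleton_self Q) (A j) hAj
        have hs1 : ∀ c ∈ 𝓒₁, c ⊆ A j := by
          intro c hc x hx
          have h6 : x ∈ Q ∩ A j := by
            rw [← h4]
            exact mem_biUnion.mpr ⟨c, hc, hx⟩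
          exact (mem_inter.mp h6).2
        have hs2 : ∀ c ∈ 𝓒₂, Disjoint c (A j) := by
          intro c hc
          rw [Finset.disjoint_left]
          intro x hx
          have h6 : x ∈ Q \ A j := by
            rw [← g4]
            exact mem_biUnion.mpr ⟨c, hc, hx⟩
          exact (mem_sdiff.mp h6).2
        refine ⟨𝓒₁ ∪ 𝓒₂, ?_, ?_, ?_, ?_, ?_⟩
        · refine (card_union_le _ _).trans ?_
          rw [pow_succ]
          omega
        · exact union_subset (h2.trans hb.1) (g2.trans hb.2)
        · intro c hc c' hc' hne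
          rcases mem_union.mp hc with h6 | h6 <;> rcases mem_union.mp hc' with h7 | h7
          · exact h3 c h6 c' h7 hne
          · exact ((hs2 c' h7).symm.mono_left (hs1 c h6))
          · exact ((hs2 c h6).mono_right (hs1 c' h7))
          · exact g3 c h6 c' h7 hne
        · rw [Finset.union_biUnion, h4, g4]
          ext x
          simp only [mem_union, mem_inter, mem_sdiff]
          tauto
        · intro c hc
          rcases mem_union.mp hc with h6 | h6
          · rcases h5 c h6 with h7 | ⟨j', h7, h8, h9⟩
            · exact Or.inl h7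
            · exact Or.inr ⟨j', h7, h8, by omega⟩
          · rcases g5 c h6 with h7 | ⟨j', h7, h8, h9⟩
            · exact Or.inl h7
            · exact Or.inr ⟨j', h7, h8, by omega⟩

end Pool.Agent.H61.SHL
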